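import Pool.Agent.Helper24K9.PL.Stm

set_option autoImplicit false

/-! The asymptotic formula at all places from the second moment. -/

namespace Pool.Agent.Helper44K9.PL

open Finset Filter Pool.Agent.Helper82K9.PR Pool.Agent.Helper24K9.PL

lemma pv_mem (g g' h : Fin 3 → ℤ) (v : Fin (1 + 1) → ℤ) (n : ℕ) :
    pv (mem g g' h v) n = lf (ev g n) (ev g' n) (ev h n) v := by
  unfold pv mem lf ev
  rw [Fin.sum_univ_three]
  simp only [Fin.val_zero, Fin.val_one, Fin.val_two]
  ring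

lemma SS_le_Cz (z : ℕ) (u : Fin (2 + 1) → ℤ) : SS z (fun _ : Fin 1 => 0) u ≤ Cz z := by
  unfold SS
  rw [Cz_eq]
  apply Finset.prod_le_prod
  · intro p hp
    have hpp := (mem_filter.1 hp).2
    have hp0 : (0 : ℝ) < p := by exact_mod_cast hpp.pos
    have h1 : (2 : ℝ) ≤ p := by exact_mod_cast hpp.two_le
    have h2 : 1 / (p : ℝ) ≤ 1 / 2 := one_div_le_one_div_of_le (by norm_num) h1
    have h3 : (nu (fun _ : Fin 1 => 0) u p : ℝ) / p ≤ 1 := by
      rw [div_le_one hp0]
      unfold nu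
      exact_mod_cast (card_filter_le _ _).trans (le_of_eq (card_range p))
    apply div_nonneg
    · linarith
    · apply pow_nonneg; linarith
  · intro p hp
    have hpp := (mem_filter.1 hp).2
    have hp0 : (0 : ℝ) < p := by exact_mod_cast hpp.pos
    have h1 : (2 : ℝ) ≤ p := by exact_mod_cast hpp.two_le
    have h2 : 1 / (p : ℝ) ≤ 1 / 2 := one_div_le_one_div_of_le (by norm_num) h1
    have h3 : 0 ≤ (nu (fun _ : Fin 1 => 0) u p : ℝ) / p := by positivity
    have h4 : 0 < 1 - 1 / (p : ℝ) := by linarith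
    rw [pow_one, div_eq_mul_inv]
    have h5 : 0 < (1 - 1 / (p : ℝ))⁻¹ := inv_pos.2 h4
    nlinarith

lemma SS_nonneg (z : ℕ) (u : Fin (2 + 1) → ℤ) : 0 ≤ SS z (fun _ : Fin 1 => 0) u := by
  unfold SS
  apply prod_nonneg
  intro p hp
  have hpp := (mem_filter.1 hp).2
  have hp0 : (0 : ℝ) < p := by exact_mod_cast hpp.pos
  have h1 : (2 : ℝ) ≤ p := by exact_mod_cast hpp.two_le
  have h2 : 1 / (p : ℝ) ≤ 1 / 2 := one_div_le_one_div_of_le (by norm_num) h1
  have h3 : (nu (fun _ : Fin 1 => 0) u p : ℝ) / p ≤ 1 := by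
    rw [div_le_one hp0]
    unfold nu
    exact_mod_cast (card_filter_le _ _).trans (le_of_eq (card_range p))
  apply div_nonneg
  · linarith
  · apply pow_nonneg; linarith

theorem all : S_SEC → S_ALL := by
  intro hsec g g' hnz B0 C ε hε
  classical
  obtain ⟨z0, hz0, hs⟩ := hsec g g' hnz B0 (3 * C) ((ε / 4) ^ 2 * (ε / (8 / ε + 4))) (by positivity)
  refine ⟨z0, hz0, fun z hz => ?_⟩
  obtain ⟨A1, hA13, hA1⟩ := hs z hz
  have hCz := Cz_ge z
  set S0 : ℝ := Cz z with hS0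
  have hS00 : 0 < S0 := by linarith
  set J := ⌈8 * S0 / ε + 1⌉₊ with hJdef
  have hJ : 8 * S0 / ε + 1 ≤ J := Nat.le_ceil _
  have hJup : (J : ℝ) + 2 ≤ (8 / ε + 4) * S0 := by
    have h1 : (J : ℝ) < 8 * S0 / ε + 1 + 1 := Nat.ceil_lt_add_one (by positivity)
    have h2 : (8 / ε + 4) * S0 = 8 * S0 / ε + 4 * S0 := by ring
    rw [h2]
    linarith
  have hJ1 : (1 : ℝ) ≤ J := by
    have : 0 ≤ 8 * S0 / ε := by positivity
    linarith
  have hJ0 : 0 < J := by exact_mod_cast lt_of_lt_of_le one_pos hJ1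
  obtain ⟨A2, hA2⟩ := exists_nat_ge (16 * (Cz z ^ 1 * primorial z) / ε + (Cz z ^ 1 * primorial z) + 16 * S0 / ε)
  refine ⟨max A1 A2, hA13.trans (le_max_left _ _), fun H hH x hAx hxB h hh => ?_⟩
  have hHA1 : A1 ≤ H := (le_max_left _ _).trans hH
  have hH3 : 3 ≤ H := hA13.trans hHA1
  set L := Real.log H with hL
  have hL1 : 1 ≤ L := by
    rw [hL, Real.le_log_iff_exp_le (by exact_mod_cast (by omega : 0 < H))]
    have h3 : (3 : ℝ) ≤ H := by exact_mod_cast hH3
    have := Real.exp_one_lt_d9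
    linarith
  have hxm : ((max A1 A2 : ℕ) : ℝ) ≤ x := by
    refine le_trans ?_ hAx
    exact le_mul_of_one_le_right (Nat.cast_nonneg _) hL1
  have hxA1 : A1 * L ≤ x := by
    refine le_trans ?_ hAx
    apply mul_le_mul_of_nonneg_right _ (by positivity)
    exact_mod_cast le_max_left _ _
  have hxA2 : 16 * (Cz z ^ 1 * primorial z) / ε + (Cz z ^ 1 * primorial z) + 16 * S0 / ε ≤ x := by
    refine hA2.trans (le_trans ?_ hxm)
    exact_mod_cast le_max_right _ _
  have hW : (0 : ℝ) < primorial z := by exact_mod_cast primorial_pos z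
  set R := Cz z ^ 1 * (primorial z : ℝ) with hR
  have hR0 : 0 < R := by positivity
  have hx1 : (1 : ℝ) ≤ x := by
    have : (3 : ℝ) ≤ ((max A1 A2 : ℕ) : ℝ) := by exact_mod_cast hA13.trans (le_max_left _ _)
    linarith
  have hx0 : (0 : ℝ) < x := by linarith
  have hxn : 1 ≤ x := by exact_mod_cast hx1
  have hRx : R ≤ ε / 16 * x := by
    have h1 : 16 * R / ε ≤ x := by
      have : 0 ≤ 16 * S0 / ε := by positivity
      linarith
    rw [div_le_iff₀ hε] at h1
    linarith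
  have hSx : S0 ≤ ε / 16 * x := by
    have h1 : 16 * S0 / ε ≤ x := by
      have : 0 ≤ 16 * R / ε := by positivity
      linarith
    rw [div_le_iff₀ hε] at h1
    linarith
  set yy : ℕ → ℕ := fun j => min x (j * x / J) with hyy
  set N : ℝ := ((Bx 1 H).card : ℝ) with hN
  have hN0 : 0 ≤ N := Nat.cast_nonneg _
  set FF' : (Fin (1 + 1) → ℤ) → ℕ → ℝ := fun v n => om L (pv (mem g g' h v) n) with hFF'
  set RR' : (Fin (1 + 1) → ℤ) → ℕ → ℝ := fun v n => MM (primorial z) (pv (mem g g' h v) n) with hRR'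
  set SS' : (Fin (1 + 1) → ℤ) → ℝ := fun v => SS z (fun _ : Fin 1 => 0) (mem g g' h v) with hSS'
  have hRRsum : ∀ (v : Fin (1 + 1) → ℤ) (y : ℕ), |∑ n ∈ Icc 1 y, RR' v n - SS' v * y| ≤ R := by
    intro v y
    have h1 := RR_sum z (fun _ : Fin 1 => 0) (mem g g' h v) y
    have e1 : ∀ n, RR z (fun _ : Fin 1 => 0) (fun _ _ => 0) (mem g g' h v) n = RR' v n := by
      intro n
      unfold RR
      rw [hRR']
      simp
    simp only [e1] at h1
    exact h1
  have hCH : 0 ≤ C * H := (abs_nonneg _).trans (hh 0)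
  have hG : ∀ n ∈ Icc 1 x, |((ev h n : ℤ) : ℝ)| ≤ 3 * C * H * (n : ℝ) ^ 2 := by
    intro n hn
    have hn1 : (1 : ℝ) ≤ n := by exact_mod_cast (mem_Icc.1 hn).1
    have hn2 : (n : ℝ) ≤ (n : ℝ) ^ 2 := by nlinarith
    have hn3 : (1 : ℝ) ≤ (n : ℝ) ^ 2 := by nlinarith
    unfold ev
    push_cast
    have a0 := hh 0
    have a1 := hh 1
    have a2 := hh 2
    have b1 : |(h 1 : ℝ) * n| ≤ C * H * (n : ℝ) ^ 2 := by
      rw [abs_mul, abs_of_nonneg (by linarith : (0 : ℝ) ≤ n)]
      exact mul_le_mul a1 hn2 (by linarith) hCH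
    have b2 : |(h 2 : ℝ) * (n : ℝ) ^ 2| ≤ C * H * (n : ℝ) ^ 2 := by
      rw [abs_mul, abs_of_nonneg (by positivity : (0 : ℝ) ≤ (n : ℝ) ^ 2)]
      exact mul_le_mul_of_nonneg_right a2 (by positivity)
    have b0 : |(h 0 : ℝ)| ≤ C * H * (n : ℝ) ^ 2 := a0.trans (le_mul_of_one_le_right hCH hn3)
    have t1 := abs_add_le ((h 0 : ℝ) + (h 1 : ℝ) * n) ((h 2 : ℝ) * (n : ℝ) ^ 2)
    have t2 := abs_add_le (h 0 : ℝ) ((h 1 : ℝ) * n)
    linarith
  -- the exceptional sets
  set E : ℕ → Finset (Fin (1 + 1) → ℤ) := fun j => (Bx 1 H).filter (fun v => (ε / 4 * x) ^ 2 <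
    ‖∑ n ∈ Icc 1 x, (if n ≤ yy j then (1 : ℂ) else 0) * ((FF' v n - RR' v n : ℝ) : ℂ)‖ ^ 2)
    with hE
  have hEc : ∀ j, ((E j).card : ℝ) ≤ ε / (J + 2) * N := by
    intro j
    have h1 := hA1 H hHA1 x hxA1 hxB (fun n => ev h n) hG (fun n => if n ≤ yy j then (1 : ℂ) else 0)
      (fun n => by split_ifs <;> simp)
    have e1 : ∑ v ∈ Bx 1 H, ‖∑ n ∈ Icc 1 x, (fun n => if n ≤ yy j then (1 : ℂ) else 0) n *
        ((om (Real.log H) (lf (ev g n) (ev g' n) ((fun n => ev h n) n) v) -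
        MM (primorial z) (lf (ev g n) (ev g' n) ((fun n => ev h n) n) v) : ℝ) : ℂ)‖ ^ 2 =
        ∑ v ∈ Bx 1 H, ‖∑ n ∈ Icc 1 x, (if n ≤ yy j then (1 : ℂ) else 0) * ((FF' v n - RR' v n : ℝ) : ℂ)‖ ^ 2 := by
      refine sum_congr rfl fun v _ => ?_
      congr 2
      refine sum_congr rfl fun n _ => ?_
      rw [hFF', hRR']
      simp only [pv_mem]
      rfl
    rw [e1] at h1
    set T := ∑ v ∈ Bx 1 H, ‖∑ n ∈ Icc 1 x, (if n ≤ yy j then (1 : ℂ) else 0) * ((FF' v n - RR' v n : ℝ) : ℂ)‖ ^ 2 with hT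
    have h2 : T ≤ (ε / 4 * x) ^ 2 * (ε / (J + 2)) * N := by
      have hJ2 : (0 : ℝ) < J + 2 := by positivity
      have h3 : (ε / 4) ^ 2 * (ε / (8 / ε + 4)) * x ^ 2 * N ≤ S0 * ((ε / 4 * x) ^ 2 * (ε / (J + 2)) * N) := by
        have h4 : ε / (8 / ε + 4) ≤ S0 * (ε / (J + 2)) := by
          rw [← mul_div_assoc, div_le_div_iff₀ (by positivity) hJ2]
          calc ε * (J + 2) ≤ ε * ((8 / ε + 4) * S0) := mul_le_mul_of_nonneg_left hJup hε.le
            _ = _ := by ring
        calc (ε / 4) ^ 2 * (ε / (8 / ε + 4)) * x ^ 2 * N ≤ (ε / 4) ^ 2 * (S0 * (ε / (J + 2))) * x ^ 2 * N := by gcongr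
          _ = _ := by ring
      exact le_of_mul_le_mul_left (h1.trans h3) hS00
    exact cheb (Bx 1 H) (fun v => ‖∑ n ∈ Icc 1 x, (if n ≤ yy j then (1 : ℂ) else 0) *
      ((FF' v n - RR' v n : ℝ) : ℂ)‖ ^ 2) (fun v => by positivity)
      ((ε / 4 * x) ^ 2) (ε / (J + 2)) (by positivity) h2
  have hsub : (Bx 1 H).filter (fun v => ∃ y ≤ x, ε * x < |∑ n ∈ Icc 1 y, FF' v n - SS' v * y|) ⊆
      (range (J + 2)).biUnion E := by
    intro v hv
    rw [mem_filter] at hv
    obtain ⟨hvB, y, hyx, hy⟩ := hv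
    by_contra hcon
    rw [mem_biUnion] at hcon
    push Not at hcon
    have hc1 := hcon
    have hRRy := hRRsum v
    have hSS0 : 0 ≤ SS' v := SS_nonneg z _
    have hSSS0 : SS' v ≤ S0 := SS_le_Cz z _
    have hpt : ∀ j ∈ range (J + 2), |∑ n ∈ Icc 1 (yy j), FF' v n -
        ∑ n ∈ Icc 1 (yy j), RR' v n| ≤ ε / 4 * x := by
      intro j hj
      have h1 := hc1 j hj
      have h2 : ‖∑ n ∈ Icc 1 x, (if n ≤ yy j then (1 : ℂ) else 0) *
          ((FF' v n - RR' v n : ℝ) : ℂ)‖ ^ 2 ≤ (ε / 4 * x) ^ 2 := by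
        by_contra hlt
        push Not at hlt
        exact h1 (mem_filter.2 ⟨hvB, hlt⟩)
      have h3 := abs_le_of_sq_le_sq h2 (by positivity)
      rw [abs_norm] at h3
      have e1 : ∑ n ∈ Icc 1 x, (if n ≤ yy j then (1 : ℂ) else 0) *
          ((FF' v n - RR' v n : ℝ) : ℂ) =
          ((∑ n ∈ Icc 1 (yy j), FF' v n - ∑ n ∈ Icc 1 (yy j), RR' v n : ℝ) : ℂ) := by
        rw [← sum_sub_distrib]
        push_cast
        have e2 : Icc 1 (yy j) = (Icc 1 x).filter (fun n => n ≤ yy j) := by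
          ext n
          rw [mem_filter, mem_Icc, mem_Icc]
          have : yy j ≤ x := min_le_left _ _
          omega
        rw [e2, sum_filter]
        apply sum_congr rfl
        intro n _
        split_ifs <;> simp
      rw [e1, Complex.norm_real, Real.norm_eq_abs] at h3
      exact h3
    -- the two places
    set j := y * J / x with hj
    have hjJ : j ≤ J := by
      rw [hj]
      calc y * J / x ≤ x * J / x := Nat.div_le_div_right (Nat.mul_le_mul_right _ hyx)
        _ = J := Nat.mul_div_cancel_left _ (by omega)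
    have hj1 : yy j ≤ y := by
      have h1 : j * x ≤ y * J := Nat.div_mul_le_self _ _
      have h2 : j * x / J ≤ y := by
        calc j * x / J ≤ y * J / J := Nat.div_le_div_right h1
          _ = y := Nat.mul_div_cancel _ hJ0
      exact (min_le_right _ _).trans h2
    have hj2 : y ≤ yy (j + 1) := by
      apply le_min hyx
      rw [Nat.le_div_iff_mul_le hJ0]
      have := Nat.lt_mul_div_succ (y * J) (by omega : 0 < x)
      rw [← hj] at this
      calc y * J ≤ x * (j + 1) := this.le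
        _ = (j + 1) * x := by ring
    have hj3 : (yy (j + 1) : ℝ) - yy j ≤ x / J + 1 := by
      have h1 : (j + 1) * x / J ≤ j * x / J + (x / J + 1) := by
        rw [add_mul, one_mul]
        have h4 := Nat.add_div hJ0 (a := j * x) (b := x)
        rw [h4]
        split_ifs <;> omega
      have h2 : yy (j + 1) ≤ yy j + (x / J + 1) := by
        show min x ((j + 1) * x / J) ≤ min x (j * x / J) + (x / J + 1)
        rcases le_total x (j * x / J) with h | h
        · rw [min_eq_left h]; exact (min_le_left _ _).trans (Nat.le_add_right _ _)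
        · rw [min_eq_right h]; exact (min_le_right _ _).trans h1
      have h3 : ((yy (j + 1) : ℕ) : ℝ) ≤ yy j + ((x / J : ℕ) + 1) := by exact_mod_cast h2
      have h4 : ((x / J : ℕ) : ℝ) ≤ x / J := Nat.cast_div_le
      linarith
    have hJx : S0 * (x / J + 1) ≤ 3 * ε / 16 * x := by
      have h1 : 8 * S0 / ε ≤ J := by linarith
      rw [div_le_iff₀ hε] at h1
      have h2 : S0 * (x / J) ≤ ε / 8 * x := by
        rw [← mul_div_assoc, div_le_iff₀ (by linarith)]
        nlinarith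
      linarith
    have p1 := hpt j (mem_range.2 (by omega))
    have p2 := hpt (j + 1) (mem_range.2 (by omega))
    have q1 := hRRy (yy j)
    have q2 := hRRy (yy (j + 1))
    have hFFm : ∀ a b : ℕ, a ≤ b → ∑ n ∈ Icc 1 a, FF' v n ≤ ∑ n ∈ Icc 1 b, FF' v n := by
      intro a b hab
      apply sum_le_sum_of_subset_of_nonneg
      · exact Icc_subset_Icc_right hab
      · intro n _ _
        exact om_nonneg (by linarith) _
    have m1 := hFFm _ _ hj1
    have m2 := hFFm _ _ hj2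
    have hy1 : (yy j : ℝ) ≤ y := by exact_mod_cast hj1
    have hy2 : (y : ℝ) ≤ yy (j + 1) := by exact_mod_cast hj2
    have r1 : SS' v * (yy (j + 1) - y) ≤ S0 * (x / J + 1) := by
      apply mul_le_mul hSSS0 (by linarith) (by linarith) hS00.le
    have r2 : SS' v * (y - yy j) ≤ S0 * (x / J + 1) := by
      apply mul_le_mul hSSS0 (by linarith) (by linarith) hS00.le
    obtain ⟨p11, p12⟩ := abs_le.1 p1
    obtain ⟨p21, p22⟩ := abs_le.1 p2
    obtain ⟨q11, q12⟩ := abs_le.1 q1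
    obtain ⟨q21, q22⟩ := abs_le.1 q2
    have hεx : 0 < ε * x := by positivity
    have : |∑ n ∈ Icc 1 y, FF' v n - SS' v * y| ≤ ε * x := by
      rw [abs_le]
      constructor
      · nlinarith
      · nlinarith
    linarith

  have hfin : ((((Bx 1 H).filter (fun v => ∃ y ≤ x, ε * x < |∑ n ∈ Icc 1 y, FF' v n - SS' v * y|)).card : ℕ) : ℝ) ≤ ε * N := by
    calc ((((Bx 1 H).filter (fun v => ∃ y ≤ x, ε * x < |∑ n ∈ Icc 1 y, FF' v n - SS' v * y|)).card : ℕ) : ℝ)
        ≤ (((range (J + 2)).biUnion E).card : ℝ) := by exact_mod_cast card_le_card hsub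
      _ ≤ ∑ j ∈ range (J + 2), ((E j).card : ℝ) := by
          have := card_biUnion_le (s := range (J + 2)) (t := E)
          exact_mod_cast this
      _ ≤ ∑ j ∈ range (J + 2), ε / (J + 2) * N := sum_le_sum fun j _ => hEc j
      _ = ε * N := by
          rw [sum_const, card_range, nsmul_eq_mul]
          push_cast
          have : (J : ℝ) + 2 ≠ 0 := by positivity
          field_simp
  refine le_trans (le_of_eq ?_) hfin
  congr 2

end Pool.Agent.Helper44K9.PL
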