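import Pool.Agent.Helper24K9.PL.Stm

set_option autoImplicit false

/-! Exponential moments of the large prime factors of the values of a linear polynomial. -/

namespace Pool.Agent.Helper44K9.PL

open Finset Pool.Agent.Helper82K9.PR Pool.Agent.Helper24K9.PL

/-- solutions of a linear congruence -/
lemma count_lin (a b : ℤ) (q x : ℕ) (hq : 1 ≤ q) (hc : IsCoprime a (q : ℤ)) :
    (((Icc 1 x).filter (fun m : ℕ => (q : ℤ) ∣ a * m + b)).card : ℝ) ≤ x / q + 1 := by
  have h1 : ((Icc 1 x).filter (fun m : ℕ => (q : ℤ) ∣ a * m + b)).card ≤ x / q + 1 := by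
    have h2 := card_le_card_of_injOn (s := (Icc 1 x).filter (fun m : ℕ => (q : ℤ) ∣ a * m + b))
      (t := range (x / q + 1)) (fun m => (m - 1) / q) (by
        intro m hm
        have hm' := mem_Icc.1 (mem_filter.1 (mem_coe.1 hm)).1
        refine mem_coe.2 (mem_range.2 ?_)
        have : (m - 1) / q ≤ x / q := Nat.div_le_div_right (by omega)
        show (m - 1) / q < x / q + 1
        omega) (by
        intro m hm m' hm' hmm
        have h3 := mem_filter.1 (mem_coe.1 hm)
        have h4 := mem_filter.1 (mem_coe.1 hm')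
        have h5 := (mem_Icc.1 h3.1).1
        have h6 := (mem_Icc.1 h4.1).1
        have h7 : (q : ℤ) ∣ a * ((m : ℤ) - m') := by
          have := dvd_sub h3.2 h4.2
          have e : a * (m : ℤ) + b - (a * (m' : ℤ) + b) = a * ((m : ℤ) - m') := by ring
          rwa [e] at this
        have h8 : (q : ℤ) ∣ (m : ℤ) - m' := (hc.symm).dvd_of_dvd_mul_left h7
        have h9 : (m' - 1) % q = (m - 1) % q := by
          have : (m' - 1) ≡ (m - 1) [MOD q] := by
            rw [Nat.modEq_iff_dvd]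
            have e : ((m - 1 : ℕ) : ℤ) - ((m' - 1 : ℕ) : ℤ) = (m : ℤ) - m' := by
              rw [Nat.cast_sub h5, Nat.cast_sub h6]; push_cast; ring
            rw [e]; exact h8
          exact this
        simp only at hmm
        have h10 := Nat.div_add_mod (m - 1) q
        have h11 := Nat.div_add_mod (m' - 1) q
        rw [hmm, ← h9] at h10
        omega)
    rwa [card_range] at h2
  have h2 : ((x / q : ℕ) : ℝ) ≤ x / q := Nat.cast_div_le
  have h3 : (((Icc 1 x).filter (fun m : ℕ => (q : ℤ) ∣ a * m + b)).card : ℝ) ≤ ((x / q : ℕ) : ℝ) + 1 := by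
    exact_mod_cast h1
  linarith

theorem lin : S_LIN := by
  intro C hC z x Y hz a b hab hY
  classical
  set P : Finset ℕ := (Ioc z Y).filter Nat.Prime with hP
  set y : ℕ → ℝ := fun p => Real.exp (C / p) - 1 with hy
  have hy0 : ∀ p, 0 ≤ y p := by
    intro p
    have : 0 ≤ C / (p : ℝ) := by positivity
    have := Real.add_one_le_exp (C / (p : ℝ))
    rw [hy]; simp only; linarith
  have hpr : ∀ p ∈ P, p.Prime := fun p hp => (mem_filter.1 hp).2
  have hpz : ∀ p ∈ P, z < p := fun p hp => (mem_Ioc.1 (mem_filter.1 hp).1).1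
  have e1 : ∀ m ∈ Icc 1 x, Real.exp (C * sg z (a * m + b).natAbs) ≤
      ∑ D ∈ P.powerset, if (∀ p ∈ D, (p : ℤ) ∣ a * m + b) then ∏ p ∈ D, y p else 0 := by
    intro m hm
    have hYm := hY m hm
    have hsub : LP z (a * m + b).natAbs ⊆ P.filter (fun p : ℕ => (p : ℤ) ∣ a * m + b) := by
      intro p hp
      unfold LP at hp
      rw [mem_filter, Nat.mem_primeFactors] at hp
      obtain ⟨⟨h1, h2, h3⟩, h4⟩ := hp
      rw [mem_filter, hP, mem_filter, mem_Ioc]
      exact ⟨⟨⟨h4, (Nat.le_of_dvd (Nat.pos_of_ne_zero h3) h2).trans hYm⟩, h1⟩, Int.natCast_dvd.2 h2⟩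
    have e2 : Real.exp (C * sg z (a * m + b).natAbs) = ∏ p ∈ LP z (a * m + b).natAbs, (1 + y p) := by
      unfold sg
      rw [mul_sum, Real.exp_sum]
      apply prod_congr rfl
      intro p _
      rw [hy]; simp only
      rw [mul_one_div]; ring
    rw [e2, prod_one_add, ← sum_filter]
    refine sum_le_sum_of_subset_of_nonneg ?_ fun D _ _ => prod_nonneg fun p _ => hy0 p
    intro D hD
    rw [mem_powerset] at hD
    rw [mem_filter, mem_powerset]
    exact ⟨fun p hp => (mem_filter.1 (hsub (hD hp))).1, fun p hp => (mem_filter.1 (hsub (hD hp))).2⟩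
  refine (sum_le_sum e1).trans ?_
  rw [sum_comm]
  have e3 : ∀ D ∈ P.powerset, ∑ m ∈ Icc 1 x, (if (∀ p ∈ D, (p : ℤ) ∣ a * m + b) then ∏ p ∈ D, y p else 0) ≤
      x * ∏ p ∈ D, (y p / p) + ∏ p ∈ D, y p := by
    intro D hD
    rw [mem_powerset] at hD
    rw [← sum_filter, sum_const, nsmul_eq_mul, prod_div_distrib]
    have hpr' : ∀ p ∈ D, Nat.Prime p := fun p hp => hpr p (hD hp)
    have hprod0 : 0 ≤ ∏ p ∈ D, y p := prod_nonneg fun p _ => hy0 p
    have hprodp : 0 ≤ ∏ p ∈ D, (p : ℝ) := prod_nonneg fun p _ => Nat.cast_nonneg _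
    by_cases hcop : ∀ p ∈ D, ¬ (p : ℤ) ∣ a
    · have hpos : 0 < ∏ p ∈ D, p := prod_pos fun p hp => (hpr' p hp).pos
      have hc : IsCoprime a ((∏ p ∈ D, p : ℕ) : ℤ) := by
        push_cast
        refine IsCoprime.prod_right fun p hp => ?_
        rw [isCoprime_comm]
        exact (Prime.coprime_iff_not_dvd (Nat.prime_iff_prime_int.1 (hpr' p hp))).2 (hcop p hp)
      have h1 : ((Icc 1 x).filter (fun m : ℕ => ∀ p ∈ D, (p : ℤ) ∣ a * m + b)) ⊆
          (Icc 1 x).filter (fun m : ℕ => ((∏ p ∈ D, p : ℕ) : ℤ) ∣ a * m + b) := by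
        intro m hm
        rw [mem_filter] at hm ⊢
        refine ⟨hm.1, ?_⟩
        rw [Int.natCast_dvd]
        apply Finset.prod_primes_dvd
        · intro p hp; exact (hpr' p hp).prime
        · intro p hp; exact Int.natCast_dvd.1 (hm.2 p hp)
      have h2 := count_lin a b (∏ p ∈ D, p) x hpos hc
      have h3 : (((Icc 1 x).filter (fun m : ℕ => ∀ p ∈ D, (p : ℤ) ∣ a * m + b)).card : ℝ) ≤
          x / ((∏ p ∈ D, p : ℕ) : ℝ) + 1 := by
        refine le_trans ?_ h2
        exact_mod_cast card_le_card h1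
      calc (((Icc 1 x).filter (fun m : ℕ => ∀ p ∈ D, (p : ℤ) ∣ a * m + b)).card : ℝ) * ∏ p ∈ D, y p ≤
            (x / ((∏ p ∈ D, p : ℕ) : ℝ) + 1) * ∏ p ∈ D, y p := mul_le_mul_of_nonneg_right h3 hprod0
        _ = _ := by push_cast; ring
    · push Not at hcop
      obtain ⟨p, hp, hpa⟩ := hcop
      have h0 : (Icc 1 x).filter (fun m : ℕ => ∀ p ∈ D, (p : ℤ) ∣ a * m + b) = ∅ := by
        apply filter_false_of_mem
        intro m _ h
        have h1 := h p hp
        have h2 : (p : ℤ) ∣ b := (dvd_add_right (hpa.mul_right _)).1 h1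
        exact hab p (hpr' p hp) (hpz p (hD hp)) hpa h2
      rw [h0, card_empty, Nat.cast_zero, zero_mul]
      positivity
  refine (sum_le_sum e3).trans ?_
  rw [sum_add_distrib, ← mul_sum, ← prod_one_add, ← prod_one_add]
  have hyp : ∀ p ∈ P, y p / p ≤ C * Real.exp C * ((p : ℝ) ^ 2)⁻¹ := by
    intro p hp
    rw [hP, mem_filter] at hp
    have hp1 : (1 : ℝ) ≤ p := by exact_mod_cast hp.2.one_le
    have hp0 : (0 : ℝ) < p := by linarith
    have h4 : y p ≤ C / p * Real.exp C := by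
      have h5 : C / p ≤ C := div_le_self hC hp1
      have h6 : 0 ≤ C / (p : ℝ) := by positivity
      have h7 := Real.add_one_le_exp (-(C / (p : ℝ)))
      have h8 : Real.exp (C / p) * Real.exp (-(C / (p : ℝ))) = 1 := by rw [← Real.exp_add]; simp
      have h9 := Real.exp_pos (C / (p : ℝ))
      have h10 : Real.exp (C / p) ≤ Real.exp C := Real.exp_le_exp.2 h5
      have h11 : Real.exp (C / p) * (-(C / (p : ℝ)) + 1) ≤ 1 :=
        (mul_le_mul_of_nonneg_left h7 h9.le).trans h8.le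
      have h12 : C / p * Real.exp (C / p) ≤ C / p * Real.exp C := mul_le_mul_of_nonneg_left h10 h6
      rw [hy]; simp only; nlinarith
    calc y p / p ≤ C / p * Real.exp C / p := by gcongr
      _ = _ := by field_simp
  have hfirst : (x : ℝ) * ∏ p ∈ P, (1 + y p / p) ≤ x * Real.exp (C * Real.exp C / z) := by
    apply mul_le_mul_of_nonneg_left _ (Nat.cast_nonneg _)
    refine (Real.prod_one_add_le_exp_sum P (f := fun p : ℕ => y p / (p : ℝ)) (fun p => div_nonneg (hy0 p) (Nat.cast_nonneg _))).trans ?_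
    apply Real.exp_le_exp.2
    calc ∑ p ∈ P, y p / p ≤ ∑ p ∈ P, C * Real.exp C * ((p : ℝ) ^ 2)⁻¹ := sum_le_sum hyp
      _ ≤ ∑ p ∈ Ioc z Y, C * Real.exp C * ((p : ℝ) ^ 2)⁻¹ := by
          apply sum_le_sum_of_subset_of_nonneg (filter_subset _ _)
          intro p _ _
          positivity
      _ = C * Real.exp C * ∑ p ∈ Ioc z Y, ((p : ℝ) ^ 2)⁻¹ := by rw [mul_sum]
      _ ≤ C * Real.exp C * (1 / z) := by
          apply mul_le_mul_of_nonneg_left _ (by positivity)
          rcases le_total z Y with h | h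
          · have := sum_Ioc_inv_sq_le_sub (α := ℝ) (by omega : z ≠ 0) h
            refine this.trans ?_
            have : (0 : ℝ) ≤ (Y : ℝ)⁻¹ := by positivity
            rw [one_div]; linarith
          · rw [Ioc_eq_empty (by omega), sum_empty]
            positivity
      _ = C * Real.exp C / z := by ring
  have hsecond : ∏ p ∈ P, (1 + y p) ≤ Real.exp (C * Real.exp C * ∑ p ∈ Nat.primesLE Y, (p : ℝ)⁻¹) := by
    have e4 : ∏ p ∈ P, (1 + y p) = Real.exp (C * ∑ p ∈ P, (p : ℝ)⁻¹) := by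
      rw [mul_sum, Real.exp_sum]
      apply prod_congr rfl
      intro p _
      rw [hy]; simp only
      rw [← div_eq_mul_inv]; ring
    rw [e4]
    apply Real.exp_le_exp.2
    have h1 : (1 : ℝ) ≤ Real.exp C := Real.one_le_exp hC
    have h2 : ∑ p ∈ P, (p : ℝ)⁻¹ ≤ ∑ p ∈ Nat.primesLE Y, (p : ℝ)⁻¹ := by
      apply sum_le_sum_of_subset_of_nonneg
      · intro p hp
        rw [← primes_eq, mem_filter, mem_Icc]
        rw [hP, mem_filter, mem_Ioc] at hp
        exact ⟨⟨by omega, hp.1.2⟩, hp.2⟩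
      · intro p _ _; positivity
    have h3 : 0 ≤ ∑ p ∈ Nat.primesLE Y, (p : ℝ)⁻¹ := sum_nonneg fun p _ => by positivity
    calc C * ∑ p ∈ P, (p : ℝ)⁻¹ ≤ C * ∑ p ∈ Nat.primesLE Y, (p : ℝ)⁻¹ := mul_le_mul_of_nonneg_left h2 hC
      _ = C * 1 * ∑ p ∈ Nat.primesLE Y, (p : ℝ)⁻¹ := by ring
      _ ≤ C * Real.exp C * ∑ p ∈ Nat.primesLE Y, (p : ℝ)⁻¹ := by gcongr
  exact add_le_add hfirst hsecond

end Pool.Agent.Helper44K9.PL
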